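import Pool.Agent.W813.NC.Stm

/-!
NC-PSI: the one-parameter group of a grading.
-/

set_option linter.unusedSectionVars false

open CategoryTheory Limits MonoidalCategory

namespace Pool.Agent.W915.NC

open Pool.Agent.W813.NC

universe v u v' u'

/-- the operator attached to a grading -/
theorem exists_op {F : Type} [Field F] {M : Type v} [AddCommGroup M] [Module F M]
    (H : ℤ → Submodule F M) (h : DirectSum.IsInternal H) (t : F) :
    ∃ ψ : M →ₗ[F] M, ∀ (i : ℤ) (f : M), f ∈ H i → ψ f = t ^ i • f := by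
  classical
  let e : (DirectSum ℤ fun i => H i) ≃ₗ[F] M :=
    LinearEquiv.ofBijective (DirectSum.coeLinearMap H) h
  refine ⟨(DirectSum.toModule F ℤ M (fun i => (t ^ i) • (H i).subtype)) ∘ₗ
    (e.symm : M →ₗ[F] DirectSum ℤ fun i => H i), ?_⟩
  intro i f hf
  have h1 : e.symm f = DirectSum.lof F ℤ (fun i => H i) i ⟨f, hf⟩ := by
    rw [LinearEquiv.symm_apply_eq]
    change f = DirectSum.coeLinearMap H (DirectSum.lof F ℤ (fun i => H i) i ⟨f, hf⟩)
    rw [DirectSum.coeLinearMap_lof]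
  change DirectSum.toModule F ℤ M (fun i => (t ^ i) • (H i).subtype) (e.symm f) = t ^ i • f
  rw [h1, DirectSum.toModule_lof]
  rfl

section

variable {C : Type u} [Category.{v} C] [Preadditive C] [MonoidalCategory C] [SymmetricCategory C]
  {D : Type u'} [Category.{v'} D] [Preadditive D] [MonoidalCategory D] [SymmetricCategory D]
  [MonoidalPreadditive D] (F : Type) [Field F] [Linear F D] [MonoidalLinear F D]
  (Φ : C ⥤ D)

/-- PSI -/
theorem psi [Φ.Monoidal] (H : ∀ X Y : C, ℤ → Submodule F (Φ.obj X ⟶ Φ.obj Y)) :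
    S_PSI F Φ H := by
  intro hO t ht
  have hex : ∀ X Y : C, ∃ ψ : (Φ.obj X ⟶ Φ.obj Y) →ₗ[F] (Φ.obj X ⟶ Φ.obj Y),
      ∀ (i : ℤ) (f : Φ.obj X ⟶ Φ.obj Y), f ∈ H X Y i → ψ f = t ^ i • f :=
    fun X Y => exists_op (H X Y) (hO.internal X Y) t
  choose ψ hψ using hex
  have htop : ∀ (X Y : C) (f : Φ.obj X ⟶ Φ.obj Y), f ∈ iSup (H X Y) := by
    intro X Y f
    rw [(hO.internal X Y).submodule_iSup_eq_top]
    exact Submodule.mem_top
  refine ⟨ψ, fun X Y i f hf => hψ X Y i f hf, ?_, ?_⟩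
  · intro X Y Z f g
    refine Submodule.iSup_induction (H X Y)
      (motive := fun f => ψ X Z (f ≫ g) = ψ X Y f ≫ ψ Y Z g) (htop X Y f) ?_ ?_ ?_
    · intro i f hf
      refine Submodule.iSup_induction (H Y Z)
        (motive := fun g => ψ X Z (f ≫ g) = ψ X Y f ≫ ψ Y Z g) (htop Y Z g) ?_ ?_ ?_
      · intro j g hg
        rw [hψ X Z (i + j) _ (hO.comp f g hf hg), hψ X Y i f hf, hψ Y Z j g hg,
          Linear.smul_comp, Linear.comp_smul, smul_smul, zpow_add₀ ht]
      · rw [comp_zero, map_zero, map_zero, comp_zero]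
      · intro g g' h1 h2
        rw [Preadditive.comp_add, map_add, map_add, Preadditive.comp_add, h1, h2]
    · rw [zero_comp, map_zero, map_zero, zero_comp]
    · intro f f' h1 h2
      rw [Preadditive.add_comp, map_add, map_add, Preadditive.add_comp, h1, h2]
  · intro X Y Z W f g
    refine Submodule.iSup_induction (H X Y)
      (motive := fun f => ψ (X ⊗ Z) (Y ⊗ W)
            (Functor.OplaxMonoidal.δ Φ X Z ≫ (f ⊗ₘ g) ≫ Functor.LaxMonoidal.μ Φ Y W) =
          Functor.OplaxMonoidal.δ Φ X Z ≫ (ψ X Y f ⊗ₘ ψ Z W g) ≫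
            Functor.LaxMonoidal.μ Φ Y W) (htop X Y f) ?_ ?_ ?_
    · intro i f hf
      refine Submodule.iSup_induction (H Z W)
        (motive := fun g => ψ (X ⊗ Z) (Y ⊗ W)
            (Functor.OplaxMonoidal.δ Φ X Z ≫ (f ⊗ₘ g) ≫ Functor.LaxMonoidal.μ Φ Y W) =
          Functor.OplaxMonoidal.δ Φ X Z ≫ (ψ X Y f ⊗ₘ ψ Z W g) ≫
            Functor.LaxMonoidal.μ Φ Y W) (htop Z W g) ?_ ?_ ?_
      · intro j g hg
        rw [hψ _ _ (i + j) _ (hO.tensor f g hf hg), hψ X Y i f hf, hψ Z W j g hg]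
        rw [MonoidalCategory.tensorHom_def, MonoidalCategory.tensorHom_def,
          MonoidalLinear.smul_whiskerRight, MonoidalLinear.whiskerLeft_smul,
          Linear.smul_comp, Linear.comp_smul, smul_smul, Linear.smul_comp, Linear.comp_smul,
          zpow_add₀ ht]
      · rw [map_zero, MonoidalCategory.tensorHom_def, MonoidalPreadditive.whiskerLeft_zero,
          comp_zero, zero_comp, comp_zero, map_zero, MonoidalCategory.tensorHom_def,
          MonoidalPreadditive.whiskerLeft_zero, comp_zero, zero_comp, comp_zero]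
      · intro g g' h1 h2
        have e1 : ∀ (a : Φ.obj X ⟶ Φ.obj Y) (b c : Φ.obj Z ⟶ Φ.obj W),
            Functor.OplaxMonoidal.δ Φ X Z ≫ (a ⊗ₘ (b + c)) ≫ Functor.LaxMonoidal.μ Φ Y W =
            Functor.OplaxMonoidal.δ Φ X Z ≫ (a ⊗ₘ b) ≫ Functor.LaxMonoidal.μ Φ Y W +
            Functor.OplaxMonoidal.δ Φ X Z ≫ (a ⊗ₘ c) ≫ Functor.LaxMonoidal.μ Φ Y W := by
          intro a b c
          rw [MonoidalCategory.tensorHom_def, MonoidalCategory.tensorHom_def,
            MonoidalCategory.tensorHom_def, MonoidalPreadditive.whiskerLeft_add,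
            Preadditive.comp_add, Preadditive.add_comp, Preadditive.comp_add]
        rw [e1, map_add, map_add, e1, h1, h2]
    · rw [map_zero, MonoidalCategory.tensorHom_def, MonoidalPreadditive.zero_whiskerRight,
          zero_comp, zero_comp, comp_zero, map_zero, MonoidalCategory.tensorHom_def,
          MonoidalPreadditive.zero_whiskerRight, zero_comp, zero_comp, comp_zero]
    · intro f f' h1 h2
      have e1 : ∀ (a a' : Φ.obj X ⟶ Φ.obj Y) (b : Φ.obj Z ⟶ Φ.obj W),
            Functor.OplaxMonoidal.δ Φ X Z ≫ ((a + a') ⊗ₘ b) ≫ Functor.LaxMonoidal.μ Φ Y W =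
            Functor.OplaxMonoidal.δ Φ X Z ≫ (a ⊗ₘ b) ≫ Functor.LaxMonoidal.μ Φ Y W +
            Functor.OplaxMonoidal.δ Φ X Z ≫ (a' ⊗ₘ b) ≫ Functor.LaxMonoidal.μ Φ Y W := by
          intro a a' b
          rw [MonoidalCategory.tensorHom_def, MonoidalCategory.tensorHom_def,
            MonoidalCategory.tensorHom_def, MonoidalPreadditive.add_whiskerRight,
            Preadditive.add_comp, Preadditive.add_comp, Preadditive.comp_add]
      rw [e1, map_add, map_add, e1, h1, h2]

end

end Pool.Agent.W915.NC
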